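import Pool.Agent.T9h54.FF.Spec2

/-!
# Piece (NV) of FF: the product of the new local factors is almost independent of the character
-/

set_option autoImplicit false

namespace Pool.Agent.T9h93.FF

open Pool.Agent.T9h54.FF

/-- the main term of the local factor -/
noncomputable def av (ρ : ℂ) (P : ℕ) : ℂ := -((P : ℂ) * (P : ℂ) ^ (-ρ))

theorem av_ne {ρ : ℂ} {P : ℕ} (hP : P.Prime) : av ρ P ≠ 0 := by
  have h1 : (P : ℂ) ≠ 0 := by exact_mod_cast hP.ne_zero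
  unfold av
  rw [neg_ne_zero]
  refine mul_ne_zero h1 ?_
  rw [Complex.cpow_ne_zero_iff]
  exact Or.inl h1

theorem hf_bound {ρ : ℂ} (h1 : 1 / 2 < ρ.re) {P : ℕ} (hP : P.Prime) {z : ℂ} (hz : ‖z‖ = 1) :
    ‖hf z P ρ - av ρ P‖ ≤ 12 * (P : ℝ) ^ (ρ.re - 1) * ‖av ρ P‖ := by
  have hP0 : 0 < P := hP.pos
  have hPr : (0 : ℝ) < P := by exact_mod_cast hP0
  have hP2 : (2 : ℝ) ≤ P := by exact_mod_cast hP.two_le
  obtain ⟨w, hw⟩ : ∃ w : ℂ, w = (P : ℂ) ^ (-ρ) := ⟨_, rfl⟩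
  obtain ⟨t, ht⟩ : ∃ t : ℝ, t = (P : ℝ) ^ (-ρ.re) := ⟨_, rfl⟩
  have hwt : ‖w‖ = t := by
    rw [hw, ht, Complex.norm_natCast_cpow_of_pos hP0, Complex.neg_re]
  have ht0 : 0 < t := by rw [ht]; positivity
  have hPt : P * t ^ 2 ≤ 1 := by
    have e1 : (P : ℝ) * t ^ 2 = (P : ℝ) ^ (1 + (-ρ.re) * 2) := by
      rw [Real.rpow_add hPr, Real.rpow_one, Real.rpow_mul hPr.le, ht]
      norm_cast
    rw [e1]
    exact Real.rpow_le_one_of_one_le_of_nonpos (by linarith) (by linarith)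
  have ht7 : t < 5 / 7 := by
    by_contra hcon
    push Not at hcon
    nlinarith
  have hz0 : z ≠ 0 := by
    rintro rfl
    simp at hz
  have hden : (2 : ℝ) / 7 ≤ ‖1 - z * w‖ := by
    have h2 : ‖z * w‖ = t := by rw [norm_mul, hz, hwt, one_mul]
    have h3 := norm_sub_norm_le (1 : ℂ) (z * w)
    rw [norm_one, h2] at h3
    linarith
  have hden0 : (1 - z * w) ≠ 0 := by
    intro h
    rw [h, norm_zero] at hden
    linarith
  have e2 : hf z P ρ - av ρ P = (-z⁻¹ + w - P * z * w ^ 2) / (1 - z * w) := by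
    unfold hf av
    rw [← hw]
    field_simp
    ring
  have hnum : ‖-z⁻¹ + w - P * z * w ^ 2‖ ≤ 1 + t + P * t ^ 2 := by
    refine (norm_sub_le _ _).trans ?_
    have h4 : ‖(P : ℂ) * z * w ^ 2‖ = P * t ^ 2 := by
      rw [norm_mul, norm_mul, norm_pow, hz, hwt, Complex.norm_natCast, mul_one]
    have h5 : ‖-z⁻¹ + w‖ ≤ 1 + t := by
      refine (norm_add_le _ _).trans ?_
      rw [norm_neg, norm_inv, hz, inv_one, hwt]
    rw [h4]
    linarith
  have hav : (P : ℝ) ^ (ρ.re - 1) * ‖av ρ P‖ = 1 := by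
    unfold av
    rw [← hw, norm_neg, norm_mul, Complex.norm_natCast, hwt, ht, ← mul_assoc,
      ← Real.rpow_add_one hPr.ne', ← Real.rpow_add hPr]
    rw [show ρ.re - 1 + 1 + -ρ.re = 0 by ring, Real.rpow_zero]
  rw [mul_assoc, hav, e2, norm_div, mul_one, div_le_iff₀ (by linarith)]
  have h6 : (12 : ℝ) * (2 / 7) ≤ 12 * ‖1 - z * w‖ := by linarith
  have h7 : ‖-z⁻¹ + w - P * z * w ^ 2‖ ≤ 19 / 7 := by linarith
  linarith

theorem prod_bound {ρ : ℂ} (h1 : 1 / 2 < ρ.re) (z : ℕ → ℂ) : ∀ ps : List ℕ,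
    (∀ P ∈ ps, P.Prime) → (∀ P ∈ ps, ‖z P‖ = 1) →
    ‖(ps.map fun P : ℕ => hf (z P) P ρ).prod - (ps.map (av ρ)).prod‖ ≤
      (Real.exp (12 * (ps.map fun P : ℕ => (P : ℝ) ^ (ρ.re - 1)).sum) - 1) *
        ‖(ps.map (av ρ)).prod‖ := by
  intro ps
  induction ps with
  | nil => intro _ _; simp
  | cons P ps ih =>
    intro hp hz
    have ih' := ih (fun Q hQ => hp Q (List.mem_cons_of_mem _ hQ))
      (fun Q hQ => hz Q (List.mem_cons_of_mem _ hQ))
    have hP := hp P List.mem_cons_self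
    have hb := hf_bound (ρ := ρ) h1 hP (hz P List.mem_cons_self)
    simp only [List.map_cons, List.prod_cons, List.sum_cons]
    obtain ⟨X, hX⟩ : ∃ X, X = (ps.map fun P : ℕ => hf (z P) P ρ).prod := ⟨_, rfl⟩
    obtain ⟨Y, hY⟩ : ∃ Y, Y = (ps.map (av ρ)).prod := ⟨_, rfl⟩
    obtain ⟨S, hS⟩ : ∃ S, S = (ps.map fun P : ℕ => (P : ℝ) ^ (ρ.re - 1)).sum := ⟨_, rfl⟩
    obtain ⟨u, hu⟩ : ∃ u, u = 12 * (P : ℝ) ^ (ρ.re - 1) := ⟨_, rfl⟩
    rw [← hX, ← hY, ← hS] at ih' ⊢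
    rw [← hu] at hb
    have hu0 : 0 ≤ u := by rw [hu]; positivity
    have e1 : hf (z P) P ρ * X - av ρ P * Y =
        hf (z P) P ρ * (X - Y) + (hf (z P) P ρ - av ρ P) * Y := by ring
    have h2 : ‖hf (z P) P ρ‖ ≤ (1 + u) * ‖av ρ P‖ := by
      have h3 := norm_add_le (hf (z P) P ρ - av ρ P) (av ρ P)
      rw [sub_add_cancel] at h3
      linarith
    have hexp : 1 + u ≤ Real.exp u := by linarith [Real.add_one_le_exp u]
    have hE : 0 ≤ Real.exp (12 * S) - 1 ∨ Real.exp (12 * S) - 1 < 0 := le_or_gt _ _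
    have hS0 : 0 ≤ S := by
      rw [hS]
      refine List.sum_nonneg fun x hx => ?_
      obtain ⟨Q, -, rfl⟩ := List.mem_map.1 hx
      positivity
    have hE0 : 0 ≤ Real.exp (12 * S) - 1 := by
      linarith [Real.add_one_le_exp (12 * S)]
    have e2 : Real.exp (12 * ((P : ℝ) ^ (ρ.re - 1) + S)) = Real.exp u * Real.exp (12 * S) := by
      rw [← Real.exp_add, hu]
      congr 1
      ring
    rw [e1, e2, norm_mul]
    refine (norm_add_le _ _).trans ?_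
    rw [norm_mul, norm_mul]
    have hA := norm_nonneg (av ρ P)
    have hYn := norm_nonneg Y
    have h4 : ‖hf (z P) P ρ‖ * ‖X - Y‖ ≤
        ((1 + u) * ‖av ρ P‖) * ((Real.exp (12 * S) - 1) * ‖Y‖) :=
      mul_le_mul h2 ih' (norm_nonneg _) (by positivity)
    have h5 : ‖hf (z P) P ρ - av ρ P‖ * ‖Y‖ ≤ (u * ‖av ρ P‖) * ‖Y‖ :=
      mul_le_mul_of_nonneg_right hb hYn
    have h6 : (1 + u) * Real.exp (12 * S) ≤ Real.exp u * Real.exp (12 * S) :=
      mul_le_mul_of_nonneg_right hexp (Real.exp_pos _).le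
    have h7 : ((1 + u) * Real.exp (12 * S) - 1) * (‖av ρ P‖ * ‖Y‖) ≤
        (Real.exp u * Real.exp (12 * S) - 1) * (‖av ρ P‖ * ‖Y‖) :=
      mul_le_mul_of_nonneg_right (by linarith) (by positivity)
    nlinarith

theorem nv : S_NV := by
  intro ρ ε h1 _ hε
  refine ⟨Real.log (1 + ε) / 12, by have := Real.log_pos (by linarith : (1 : ℝ) < 1 + ε); positivity,
    fun ps hp hs => ⟨(ps.map (av ρ)).prod, ?_, fun z hz => ?_⟩⟩
  · rw [Ne, List.prod_eq_zero_iff, List.mem_map]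
    rintro ⟨P, hP, h0⟩
    exact av_ne (hp P hP) h0
  · refine (prod_bound h1 z ps hp hz).trans ?_
    refine mul_le_mul_of_nonneg_right ?_ (norm_nonneg _)
    have h2 : 12 * (ps.map fun P : ℕ => (P : ℝ) ^ (ρ.re - 1)).sum ≤ Real.log (1 + ε) := by
      linarith
    have h3 := Real.exp_le_exp.2 h2
    rw [Real.exp_log (by linarith)] at h3
    linarith

end Pool.Agent.T9h93.FF
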